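import Pool.Agent.H240.GU.Hyp2
import Pool.Agent.H240.BS.Fin6

/-!
# The values of the eigenfunctions of the generic continuous metric in the closure of the negatively
curved metrics collapse

Let `(M, g)` be ANY closed connected orientable surface with a smooth metric of negative curvature, with a
simple closed geodesic `c` (scaled to length `2π`). They are described as follows: `M` is the quotient of
a plane domain `Ω` (contained in a half plane `Re z < R₀`) by a group `G` which acts freely, properly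
discontinuously and cocompactly by holomorphic maps and which contains the translation by `2πi`, `g` is
given by an invariant metric `exp (2 φ) |dz|²` on `Ω`, and the closed geodesic has a lift `c` with
`c (t + 2π) = c t + 2πi`. (Every closed orientable surface of negative curvature is of this form, after
multiplying the metric by a constant: it has a simple closed geodesic, for instance a shortest closed
geodesic; take for `Ω` the universal covering, which is conformally equivalent to a vertical strip such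
that the deck transformation of the geodesic is the translation by `2πi`.)

Let `N ⊆ C(M)` be the set of the smooth functions `f` for which the metric `exp (2 f) g` has negative
curvature everywhere and a simple closed geodesic of length `2π` which has a lift as above, and let `X` be
the closure of `N` in the Banach space `C(M)` of the continuous functions. So `X` is a complete metric
space; the metrics `exp (2 f) g`, `f ∈ X`, are the continuous metrics (in the conformal class) which are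
uniform limits of the negatively curved metrics, suitably scaled; their curvature is nonpositive in the
sense of distributions.

Continuous metrics have a Laplace operator: an eigenfunction in the weak sense is a limit in `L²` of `C¹`
functions `F k`, whose gradients form a Cauchy sequence in `L²`, such that
`∫ ⟨∇ F k, ∇ G⟩ → lam ∫ u G` for all `C¹` functions `G`. Ordered orthonormal bases of weak eigenfunctions
exist for all continuous metrics, and for smooth metrics the weak eigenfunctions are (up to null sets) the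
smooth eigenfunctions; this is part of the theorem.

**Theorem.** For the generic `f ∈ X` (for all `f` in a residual set, which is dense in `X`) every ordered
orthonormal basis `u 0, u 1, …` of weak eigenfunctions of `exp (2 f) g` has a subsequence, whose counting
function is not `O (√Λ)`, along which the laws of the `u j` (with respect to the normalized area) converge
weakly to the point mass at `0`.

So the random wave conjecture fails for this single metric: the laws of the subsequence do not converge to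
the normal law `N (0, 1 / vol)`.

Proof. The theorem `MP_07c750_an.ScarsNearEveryGeodesic` gives near each `f₀ ∈ N` an `f₁ ∈ X` for which the
eigenfunctions of a subsequence concentrate on a closed geodesic `c'`. The distance functions of the closed
curves of bounded speed (in a finite number of coordinates of the surface) form a relatively compact set
in `C(M)` (Arzelà and Ascoli), and the limits vanish only on null sets, on Lipschitz curves. The
eigenfunctions depend continuously on the metric in the `C⁰` topology, so all `f' ∈ X` near `f₁` have in an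
energy window many eigenfunctions which are small outside of a neighbourhood of `c'`, in every basis.
Baire's theorem and the compactness give a closed null set on which the `(u j)²` concentrate along a
subsequence, so that the laws of the `u j` tend to the point mass at `0`.
-/

set_option autoImplicit false

open Set Filter Topology MeasureTheory
open scoped ContDiff

noncomputable section

namespace Pool.Agent.Results.MP_a52643_an.GenericContinuousMetric

/-- the partial derivative with respect to `x` -/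
def px (φ : ℂ → ℝ) (z : ℂ) : ℝ := fderiv ℝ φ z 1

/-- the partial derivative with respect to `y` -/
def py (φ : ℂ → ℝ) (z : ℂ) : ℝ := fderiv ℝ φ z Complex.I

/-- the nonnegative Laplace-Beltrami operator of the metric `exp (2 φ) |dz|²` -/
def lapl (φ v : ℂ → ℝ) (z : ℂ) : ℝ := -(Real.exp (-2 * φ z) * (px (px v) z + py (py v) z))

/-- the Gauss curvature of the metric `exp (2 φ) |dz|²` -/
def curvature (φ : ℂ → ℝ) (z : ℂ) : ℝ := lapl φ φ z

/-- The group `G` acts on the connected open set `Ω` of the plane by holomorphic maps `a γ`, freely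
(modulo the elements which act trivially), properly discontinuously and cocompactly. -/
structure IsCocompactAction (G : Type) [Group G] (Ω : Set ℂ) (a : G → ℂ → ℂ) : Prop where
  domain : IsOpen Ω
  conn : IsPreconnected Ω
  nonempty : Ω.Nonempty
  maps : ∀ γ, ∀ z ∈ Ω, a γ z ∈ Ω
  one : ∀ z ∈ Ω, a 1 z = z
  mul : ∀ γ γ', ∀ z ∈ Ω, a (γ * γ') z = a γ (a γ' z)
  hol : ∀ γ, DifferentiableOn ℂ (a γ) Ω
  free : ∀ γ, ∀ z ∈ Ω, a γ z = z → ∀ w ∈ Ω, a γ w = w
  proper : ∀ K : Set ℂ, IsCompact K → K ⊆ Ω → {γ | (a γ '' K ∩ K).Nonempty}.Finite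
  cocompact : ∃ K : Set ℂ, IsCompact K ∧ K ⊆ Ω ∧ ∀ z ∈ Ω, ∃ γ, a γ z ∈ K

/-- the smooth metric `exp (2 φ) |dz|²` on `Ω` is invariant under the group -/
def IsInvariantMetric {G : Type} (Ω : Set ℂ) (a : G → ℂ → ℂ) (φ : ℂ → ℝ) : Prop :=
  ContDiffOn ℝ ∞ φ Ω ∧ ∀ γ, ∀ z ∈ Ω, deriv (a γ) z ≠ 0 ∧
    φ (a γ z) + Real.log ‖deriv (a γ) z‖ = φ z

section

variable {M : Type}

/-- `M` is the quotient of `Ω` by the group, with the projection `pr` (a covering) -/
structure IsQuotient [TopologicalSpace M] {G : Type} (Ω : Set ℂ) (a : G → ℂ → ℂ) (pr : ℂ → M) :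
    Prop where
  cont : ContinuousOn pr Ω
  open_map : ∀ O : Set ℂ, IsOpen O → O ⊆ Ω → IsOpen (pr '' O)
  surj : pr '' Ω = univ
  rel : ∀ z ∈ Ω, ∀ w ∈ Ω, (pr z = pr w ↔ ∃ γ, a γ z = w)
  loc_inj : ∀ z ∈ Ω, ∃ r : ℝ, 0 < r ∧ Metric.ball z r ⊆ Ω ∧ InjOn pr (Metric.ball z r)
  conn : IsPreconnected (univ : Set M)

/-- `M = Ω / G` is a closed connected surface with the metric `exp (2 φ) |dz|²` of negative curvature;
the domain `Ω` is contained in a half plane `Re z < R₀`, and the translation by `2πi` belongs to the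
group -/
structure IsNegativelyCurvedSurface (G : Type) [Group G] [TopologicalSpace M] (Ω : Set ℂ)
    (a : G → ℂ → ℂ) (φ : ℂ → ℝ) (pr : ℂ → M) : Prop where
  action : IsCocompactAction G Ω a
  quotient : IsQuotient Ω a pr
  metric : IsInvariantMetric Ω a φ
  negative : ∀ z ∈ Ω, curvature φ z < 0
  translation : ∃ γ : G, ∀ z ∈ Ω, a γ z = z + 2 * Real.pi * Complex.I
  bounded : ∃ R₀ : ℝ, ∀ z ∈ Ω, z.re < R₀

/-- the unit vectors `(z, θ)` (the vector `exp (- φ z) exp (i θ)` at `z`) at the points of `Ω` -/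
def UV (Ω : Set ℂ) : Set (ℂ × ℝ) := {p | p.1 ∈ Ω}

/-- `μ` is the area of the surface -/
def IsAreaM [MeasurableSpace M] (Ω : Set ℂ) (φ : ℂ → ℝ) (pr : ℂ → M) (μ : Measure M) : Prop :=
  ∀ B : Set ℂ, MeasurableSet B → B ⊆ Ω → InjOn pr B →
    μ (pr '' B) = ∫⁻ z in B, ENNReal.ofReal (Real.exp (2 * φ z))

/-- the geodesic vector field: `z' = exp (- φ) exp (i θ)`,
`θ' = exp (- φ) (- φ_x sin θ + φ_y cos θ)` -/
def geod (φ : ℂ → ℝ) (p : ℂ × ℝ) : ℂ × ℝ :=
  (⟨Real.exp (-φ p.1) * Real.cos p.2, Real.exp (-φ p.1) * Real.sin p.2⟩,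
    Real.exp (-φ p.1) * (-(px φ p.1) * Real.sin p.2 + py φ p.1 * Real.cos p.2))

/-- `F` is the geodesic flow (it is complete and smooth) -/
structure IsGeodesicFlow (Ω : Set ℂ) (φ : ℂ → ℝ) (F : ℝ → ℂ × ℝ → ℂ × ℝ) : Prop where
  maps : ∀ t, ∀ p ∈ UV Ω, F t p ∈ UV Ω
  zero : ∀ p ∈ UV Ω, F 0 p = p
  ode : ∀ t, ∀ p ∈ UV Ω, HasDerivAt (fun τ => F τ p) (geod φ (F t p)) t
  smooth : ContDiffOn ℝ ∞ (fun a : ℝ × (ℂ × ℝ) => F a.1 a.2) {a | a.2 ∈ UV Ω}

/-- `t ↦ pr (c t)` is a simple closed geodesic of length `2π` of the metric `exp (2 φ) |dz|²`,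
parametrised by the arc length: `c` is the projection of an orbit of the geodesic flow, its lift `c`
satisfies `c (t + 2π) = c t + 2πi`, and `c s`, `c t` are the same point of the surface if and only if
`t - s` is a multiple of `2π` -/
structure IsClosedGeodesic (Ω : Set ℂ) (φ : ℂ → ℝ) (pr : ℂ → M) (c : ℝ → ℂ) : Prop where
  mem : c 0 ∈ Ω
  orbit : ∃ (F : ℝ → ℂ × ℝ → ℂ × ℝ) (θ : ℝ), IsGeodesicFlow Ω φ F ∧ ∀ t, (F t (c 0, θ)).1 = c t
  period : ∀ t, c (t + 2 * Real.pi) = c t + 2 * Real.pi * Complex.I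
  simple : ∀ s t, pr (c s) = pr (c t) ↔ ∃ n : ℤ, t = s + n * (2 * Real.pi)

/-- `u` is a smooth real eigenfunction of the Laplacian of the surface with the eigenvalue `lam` -/
def IsEigenfunction (Ω : Set ℂ) (φ : ℂ → ℝ) (pr : ℂ → M) (lam : ℝ) (u : M → ℝ) : Prop :=
  ContDiffOn ℝ ∞ (fun z => u (pr z)) Ω ∧
    ∀ z ∈ Ω, lapl φ (fun z => u (pr z)) z = lam * u (pr z)

/-- the scalar product of the gradients of two functions on the surface with the metric
`exp (2 φ) |dz|²`, at the point `x`; it is computed at some point of `Ω` over `x` -/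
def gradDot (Ω : Set ℂ) (φ : ℂ → ℝ) (pr : ℂ → M) (F G : M → ℝ) (x : M) : ℝ :=
  open Classical in if h : ∃ z, z ∈ Ω ∧ pr z = x then
    Real.exp (-2 * φ h.choose) *
      (px (fun z => F (pr z)) h.choose * px (fun z => G (pr z)) h.choose +
        py (fun z => F (pr z)) h.choose * py (fun z => G (pr z)) h.choose) else 0

/-- `u` is a weak eigenfunction of the Laplacian of the surface with the continuous metric
`exp (2 φ) |dz|²` and the area `μ`, with the eigenvalue `lam` -/
structure IsWeakEigenfunction [MeasurableSpace M] (Ω : Set ℂ) (φ : ℂ → ℝ) (pr : ℂ → M)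
    (μ : Measure M) (lam : ℝ) (u : M → ℝ) : Prop where
  mem : MemLp u 2 μ
  ex : ∃ F : ℕ → M → ℝ, (∀ k, ContDiffOn ℝ 1 (fun z => F k (pr z)) Ω) ∧
    Tendsto (fun k => ∫ x, (F k x - u x) ^ 2 ∂μ) atTop (𝓝 0) ∧
    Tendsto (fun p : ℕ × ℕ => ∫ x, gradDot Ω φ pr (fun y => F p.1 y - F p.2 y)
      (fun y => F p.1 y - F p.2 y) x ∂μ) atTop (𝓝 0) ∧
    ∀ G : M → ℝ, ContDiffOn ℝ 1 (fun z => G (pr z)) Ω →
      Tendsto (fun k => ∫ x, gradDot Ω φ pr (F k) G x ∂μ) atTop (𝓝 (lam * ∫ x, u x * G x ∂μ))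

/-- `u 0, u 1, …` is an orthonormal basis of `L²` of weak eigenfunctions of the Laplacian of the surface,
ordered so that the eigenvalues `lam 0 ≤ lam 1 ≤ …` increase; the last condition says that the span of
the functions `u j` is dense in `L²` -/
structure IsWeakEigenbasis [MeasurableSpace M] (Ω : Set ℂ) (φ : ℂ → ℝ) (pr : ℂ → M)
    (μ : Measure M) (u : ℕ → M → ℝ) (lam : ℕ → ℝ) : Prop where
  eig : ∀ j, IsWeakEigenfunction Ω φ pr μ (lam j) (u j)
  mono : Monotone lam
  orth : ∀ i j, ∫ x, u i x * u j x ∂μ = if i = j then 1 else 0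
  total : ∀ f : M → ℝ, MemLp f 2 μ → (∀ j, ∫ x, f x * u j x ∂μ = 0) → f =ᵐ[μ] 0

/-- the smooth functions `f` such that the metric `exp (2 f) g`, `g = exp (2 φ) |dz|²`, has negative
curvature and a simple closed geodesic of length `2π` which has a lift with the period `2πi` -/
def NegativeFactors [TopologicalSpace M] (Ω : Set ℂ) (φ : ℂ → ℝ) (pr : ℂ → M) : Set C(M, ℝ) :=
  {f | ContDiffOn ℝ ∞ (fun z => f (pr z)) Ω ∧
    (∀ z ∈ Ω, curvature (fun z => φ z + f (pr z)) z < 0) ∧
    ∃ c : ℝ → ℂ, IsClosedGeodesic Ω (fun z => φ z + f (pr z)) pr c}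

end

/-- the number of the indices `j` in `J` with `lam j ≤ Λ` -/
def number (lam : ℕ → ℝ) (J : Set ℕ) (Λ : ℝ) : ℕ := {j | j ∈ J ∧ lam j ≤ Λ}.ncard

/-- The laws of the eigenfunctions of the metric `exp (2 f) g` collapse: each ordered orthonormal basis of
weak eigenfunctions has a subsequence, whose counting function is not `O (√Λ)`, along which the laws of the
`u j` (with respect to the normalized area) converge weakly to the point mass at `0` -/
def LawsCollapse {M : Type} [TopologicalSpace M] [MeasurableSpace M] (Ω : Set ℂ) (φ : ℂ → ℝ)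
    (pr : ℂ → M) (f : C(M, ℝ)) : Prop :=
  ∀ μ : Measure M, IsAreaM Ω (fun z => φ z + f (pr z)) pr μ →
    ∀ (u : ℕ → M → ℝ) (lam : ℕ → ℝ), IsWeakEigenbasis Ω (fun z => φ z + f (pr z)) pr μ u lam →
    Tendsto lam atTop atTop ∧ ∃ J : Set ℕ,
      (∀ C : ℝ, ∃ᶠ Λ : ℝ in atTop, C * Real.sqrt Λ < number lam J Λ) ∧
      ∀ g : ℝ → ℝ, Continuous g → (∃ B : ℝ, ∀ t, |g t| ≤ B) →
        Tendsto (fun j => (μ.real univ)⁻¹ * ∫ x, g (u j x) ∂μ) (atTop ⊓ 𝓟 J) (𝓝 (g 0))

/-- **The values of the eigenfunctions of the generic continuous metric in the closure of the negatively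
curved metrics collapse.** The first part says that the hypotheses can be satisfied by a closed hyperbolic
surface (of curvature `- k`). -/
theorem result :
    (∃ (G : Type) (_ : Group G) (M : Type) (_ : MetricSpace M) (_ : CompactSpace M) (Ω : Set ℂ)
      (a : G → ℂ → ℂ) (φ : ℂ → ℝ) (pr : ℂ → M) (c : ℝ → ℂ) (k : ℝ),
      IsNegativelyCurvedSurface G Ω a φ pr ∧ IsClosedGeodesic Ω φ pr c ∧ 0 < k ∧
      ∀ z ∈ Ω, curvature φ z = -k) ∧
    ∀ (G : Type) [Group G] (M : Type) [MetricSpace M] [CompactSpace M] [MeasurableSpace M]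
      [BorelSpace M] (Ω : Set ℂ) (a : G → ℂ → ℂ) (φ : ℂ → ℝ) (pr : ℂ → M) (c : ℝ → ℂ),
      IsNegativelyCurvedSurface G Ω a φ pr → IsClosedGeodesic Ω φ pr c →
    (0 : C(M, ℝ)) ∈ NegativeFactors Ω φ pr ∧
    (∀ f : C(M, ℝ), ∃ μ : Measure M, IsAreaM Ω (fun z => φ z + f (pr z)) pr μ ∧
      IsFiniteMeasure μ ∧ ∃ (u : ℕ → M → ℝ) (lam : ℕ → ℝ),
        IsWeakEigenbasis Ω (fun z => φ z + f (pr z)) pr μ u lam) ∧
    (∀ f : C(M, ℝ), ContDiffOn ℝ ∞ (fun z => f (pr z)) Ω → ∀ μ : Measure M,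
      IsAreaM Ω (fun z => φ z + f (pr z)) pr μ → ∀ (lam : ℝ) (u : M → ℝ),
      (IsWeakEigenfunction Ω (fun z => φ z + f (pr z)) pr μ lam u ↔
        ∃ v : M → ℝ, u =ᵐ[μ] v ∧ IsEigenfunction Ω (fun z => φ z + f (pr z)) pr lam v)) ∧
    (∀ᶠ f : closure (NegativeFactors Ω φ pr) in residual (closure (NegativeFactors Ω φ pr)),
      LawsCollapse Ω φ pr f.1) ∧
    Dense {f : closure (NegativeFactors Ω φ pr) | LawsCollapse Ω φ pr f.1} := by
  have hcu : ∀ {M : Type} {Ω : Set ℂ} {φ : ℂ → ℝ} {pr : ℂ → M} {c : ℝ → ℂ},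
      Pool.Agent.H240.GV.Cu Ω φ pr c → IsClosedGeodesic Ω φ pr c := by
    intro M Ω φ pr c h
    obtain ⟨F, θ, hF, ho⟩ := h.orbit
    exact ⟨h.mem, ⟨F, θ, ⟨hF.maps, hF.zero, hF.ode, hF.smooth⟩, ho⟩, h.per, h.simple⟩
  have hcu' : ∀ {M : Type} {Ω : Set ℂ} {φ : ℂ → ℝ} {pr : ℂ → M} {c : ℝ → ℂ},
      IsClosedGeodesic Ω φ pr c → Pool.Agent.H240.GV.Cu Ω φ pr c := by
    intro M Ω φ pr c h
    obtain ⟨F, θ, hF, ho⟩ := h.orbit
    exact ⟨⟨F, θ, ⟨hF.maps, hF.zero, hF.ode, hF.smooth⟩, ho⟩, h.mem, h.period, h.simple⟩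
  refine ⟨?_, ?_⟩
  · obtain ⟨G, iG, Ω, a, φ, M, iM, iC, pr, γ₀, R₀, k, c, hA, hI, hpr, hγ, hR, hk, hc, h⟩ :=
      Pool.Agent.H240.GV.hyp2
    exact ⟨G, iG, M, iM, iC, Ω, a, φ, pr, c, k, ⟨⟨hA.opn, hA.conn, hA.ne, hA.maps, hA.one,
      hA.mul, hA.hol, hA.free, hA.fin, hA.cpt⟩, ⟨hpr.cont, hpr.opn, hpr.surj, hpr.rel, hpr.inj,
      hpr.conn⟩, hI, fun z hz => (hc z hz).trans_lt (by linarith), ⟨γ₀, hγ⟩, ⟨R₀, hR⟩⟩, hcu h, hk,
      hc⟩
  intro G _ M _ _ _ _ Ω a φ pr c hS hc
  obtain ⟨hG, hM, hφ, hK, ⟨γ₀, hγ⟩, ⟨R₀, hR⟩⟩ := hS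
  have hA : Pool.Agent.Y262.EX.Act G Ω a := ⟨hG.domain, hG.conn, hG.nonempty, hG.maps, hG.one,
    hG.mul, hG.hol, hG.free, hG.proper, hG.cocompact⟩
  have hI : Pool.Agent.Y262.EX.Inva Ω φ a := hφ
  have hpr : Pool.Agent.Y262.EX.PrM Ω a pr :=
    ⟨hM.cont, hM.open_map, hM.surj, hM.rel, hM.loc_inj, hM.conn⟩
  have hN : NegativeFactors Ω φ pr = Pool.Agent.H240.BR.Nf Ω φ pr := by
    ext f
    constructor
    · rintro ⟨h1, h2, c', h3⟩
      exact ⟨h1, h2, c', hcu' h3⟩
    · rintro ⟨h1, h2, c', h3⟩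
      exact ⟨h1, h2, c', hcu h3⟩
  have hw : ∀ (Φ : ℂ → ℝ) (μ : Measure M) (lam : ℝ) (u : M → ℝ),
      IsWeakEigenfunction Ω Φ pr μ lam u ↔ Pool.Agent.H240.BR.WkEf Ω Φ pr μ lam u :=
    fun Φ μ lam u => ⟨fun h => ⟨h.mem, h.ex⟩, fun h => ⟨h.mem, h.ex⟩⟩
  have hb : ∀ (Φ : ℂ → ℝ) (μ : Measure M) (u : ℕ → M → ℝ) (lam : ℕ → ℝ),
      IsWeakEigenbasis Ω Φ pr μ u lam ↔ Pool.Agent.H240.BR.WkB Ω Φ pr μ u lam :=
    fun Φ μ u lam => ⟨fun h => ⟨fun j => (hw _ _ _ _).1 (h.eig j), h.mono, h.orth, h.total⟩,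
      fun h => ⟨fun j => (hw _ _ _ _).2 (h.eig j), h.mono, h.orth, h.total⟩⟩
  obtain ⟨h1, h2, h3, h4⟩ := Pool.Agent.H240.BS.finC G M Ω a φ pr c R₀ γ₀
    hA hI hpr hγ hR hK (hcu' hc)
  have h5 : ∀ᶠ f : closure (NegativeFactors Ω φ pr) in residual (closure (NegativeFactors Ω φ pr)),
      LawsCollapse Ω φ pr f.1 := by
    rw [hN]
    filter_upwards [h4] with f hf
    obtain ⟨g, g1, -, g2⟩ := hf
    intro μ hμ u lam hu
    obtain ⟨hfin, k0, k1, k2⟩ := g2 μ hμ
    obtain ⟨k3, J, k4, k5⟩ := k2 u lam ((hb _ _ _ _).1 hu)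
    refine ⟨k3, J, k4, fun h hh hB => ?_⟩
    obtain ⟨B, hB⟩ := hB
    have k6 : ∀ ε : ℝ, 0 < ε → Tendsto (fun j => μ.real {x | ε ≤ |u j x|}) (atTop ⊓ 𝓟 J) (𝓝 0) := by
      intro ε hε
      have k7 := Pool.Agent.H240.BS.collapse g1 k1 (fun j => (hu.eig j).mem) k5 ε hε
      have k8 := (ENNReal.tendsto_toReal ENNReal.zero_ne_top).comp k7
      rw [ENNReal.toReal_zero] at k8
      exact k8
    have k9 := (Pool.Agent.H240.CG.law_collapse (fun j => (hu.eig j).mem.1) k6 hh hB).const_mul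
      (μ.real univ)⁻¹
    have hne : μ.real univ ≠ 0 := by
      intro h0
      rcases (ENNReal.toReal_eq_zero_iff _).1 h0 with h3 | h3
      · exact k0 h3
      · exact absurd h3 (measure_ne_top μ univ)
    rw [← mul_assoc, inv_mul_cancel₀ hne, one_mul] at k9
    exact k9
  have : CompleteSpace (closure (NegativeFactors Ω φ pr)) := isClosed_closure.completeSpace_coe
  refine ⟨by rw [hN]; exact h1, fun f => ?_, fun f hf μ hμ lam u => ?_, h5,
    dense_of_mem_residual h5⟩
  · obtain ⟨μ, k1, k2, u, lam, k3⟩ := h2 f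
    exact ⟨μ, k1, k2, u, lam, (hb _ _ _ _).2 k3⟩
  · rw [hw]
    exact h3 f hf μ hμ lam u

end Pool.Agent.Results.MP_a52643_an.GenericContinuousMetric
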