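import Pool.Agent.H240.GU.Hyp2
import Pool.Agent.H240.GU.Fin6

/-!
# Collapse of the value distribution of eigenfunctions near every negatively curved surface

Let `(M, g)` be ANY closed connected orientable surface with a smooth metric of negative curvature, with a
simple closed geodesic `c` (scaled to length `2π`). They are described as follows: `M` is the quotient of
a plane domain `Ω` (contained in a half plane `Re z < R₀`) by a group `G` which acts freely, properly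
discontinuously and cocompactly by holomorphic maps and which contains the translation by `2πi`, `g` is
given by an invariant metric `exp (2 φ) |dz|²` on `Ω`, and the closed geodesic has a lift `c` with
`c (t + 2π) = c t + 2πi`. (Every closed orientable surface of negative curvature is of this form, after
multiplying the metric by a constant: it has a simple closed geodesic, for instance a shortest closed
geodesic; take for `Ω` the universal covering, which is conformally equivalent to a vertical strip such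
that the deck transformation of the geodesic is the translation by `2πi`.)

Then there is a constant `K` such that for every `ε > 0` there are smooth functions `f` and `ψ` on `M` and
`τ₁ > 0` such that for `0 ≤ τ < τ₁` the function `f + τ ψ` has `C¹` norm at most `ε` (with respect to
`g`), the metric `g_τ = exp (2 (f + τ ψ)) g` has curvature at least `- K`, and negative curvature for
`τ > 0`, and

* the curvature of `g_0` is nonpositive and vanishes exactly on one simple closed geodesic `c'`, the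
  geodesic flow of `g_0` is ergodic, and every ordered orthonormal basis `u j` of smooth real
  eigenfunctions of `g_0` has a subsequence, whose counting function is not `O (√Λ)`, along which the laws
  of the `u j` (with respect to the normalized area) converge weakly to the point mass at `0` (not to a
  normal distribution);
* for all `C`, `Λ₀` and `ε' > 0` there are `Λ₁` and `η > 0` such that for ALL smooth metrics `exp (2 f') g`
  with `|f' - f| < η`, in particular for the negatively curved metrics `g_τ` with small `τ > 0`, and for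
  every basis as above some `Λ` with `Λ₀ ≤ Λ ≤ Λ₁` has more than `C √Λ` indices `j` with eigenvalue at
  most `Λ` for which the area of the set `|u j| ≥ ε'` is at most `ε'`.

The proof uses the result `MP_ed6ab2_an.ErgodicScarsNearEveryGeodesic` (concentration of the
eigenfunctions on `c'` along the subsequence) and the Chebyshev inequality.
-/

set_option autoImplicit false

open Set Filter Topology MeasureTheory
open scoped ContDiff

noncomputable section

namespace Pool.Agent.Results.MP_a52643_an.ValueCollapseNearEveryMetric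

/-- the partial derivative with respect to `x` -/
def px (φ : ℂ → ℝ) (z : ℂ) : ℝ := fderiv ℝ φ z 1

/-- the partial derivative with respect to `y` -/
def py (φ : ℂ → ℝ) (z : ℂ) : ℝ := fderiv ℝ φ z Complex.I

/-- the nonnegative Laplace-Beltrami operator of the metric `exp (2 φ) |dz|²` -/
def lapl (φ v : ℂ → ℝ) (z : ℂ) : ℝ := -(Real.exp (-2 * φ z) * (px (px v) z + py (py v) z))

/-- the Gauss curvature of the metric `exp (2 φ) |dz|²` -/
def curvature (φ : ℂ → ℝ) (z : ℂ) : ℝ := lapl φ φ z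

/-- The group `G` acts on the connected open set `Ω` of the plane by holomorphic maps `a γ`, freely
(modulo the elements which act trivially), properly discontinuously and cocompactly. -/
structure IsCocompactAction (G : Type) [Group G] (Ω : Set ℂ) (a : G → ℂ → ℂ) : Prop where
  domain : IsOpen Ω
  conn : IsPreconnected Ω
  nonempty : Ω.Nonempty
  maps : ∀ γ, ∀ z ∈ Ω, a γ z ∈ Ω
  one : ∀ z ∈ Ω, a 1 z = z
  mul : ∀ γ γ', ∀ z ∈ Ω, a (γ * γ') z = a γ (a γ' z)
  hol : ∀ γ, DifferentiableOn ℂ (a γ) Ω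
  free : ∀ γ, ∀ z ∈ Ω, a γ z = z → ∀ w ∈ Ω, a γ w = w
  proper : ∀ K : Set ℂ, IsCompact K → K ⊆ Ω → {γ | (a γ '' K ∩ K).Nonempty}.Finite
  cocompact : ∃ K : Set ℂ, IsCompact K ∧ K ⊆ Ω ∧ ∀ z ∈ Ω, ∃ γ, a γ z ∈ K

/-- the smooth metric `exp (2 φ) |dz|²` on `Ω` is invariant under the group -/
def IsInvariantMetric {G : Type} (Ω : Set ℂ) (a : G → ℂ → ℂ) (φ : ℂ → ℝ) : Prop :=
  ContDiffOn ℝ ∞ φ Ω ∧ ∀ γ, ∀ z ∈ Ω, deriv (a γ) z ≠ 0 ∧
    φ (a γ z) + Real.log ‖deriv (a γ) z‖ = φ z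

section

variable {M : Type}

/-- `M` is the quotient of `Ω` by the group, with the projection `pr` (a covering) -/
structure IsQuotient [TopologicalSpace M] {G : Type} (Ω : Set ℂ) (a : G → ℂ → ℂ) (pr : ℂ → M) :
    Prop where
  cont : ContinuousOn pr Ω
  open_map : ∀ O : Set ℂ, IsOpen O → O ⊆ Ω → IsOpen (pr '' O)
  surj : pr '' Ω = univ
  rel : ∀ z ∈ Ω, ∀ w ∈ Ω, (pr z = pr w ↔ ∃ γ, a γ z = w)
  loc_inj : ∀ z ∈ Ω, ∃ r : ℝ, 0 < r ∧ Metric.ball z r ⊆ Ω ∧ InjOn pr (Metric.ball z r)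
  conn : IsPreconnected (univ : Set M)

/-- `M = Ω / G` is a closed connected surface with the metric `exp (2 φ) |dz|²` of negative curvature;
the domain `Ω` is contained in a half plane `Re z < R₀`, and the translation by `2πi` belongs to the
group -/
structure IsNegativelyCurvedSurface (G : Type) [Group G] [TopologicalSpace M] (Ω : Set ℂ)
    (a : G → ℂ → ℂ) (φ : ℂ → ℝ) (pr : ℂ → M) : Prop where
  action : IsCocompactAction G Ω a
  quotient : IsQuotient Ω a pr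
  metric : IsInvariantMetric Ω a φ
  negative : ∀ z ∈ Ω, curvature φ z < 0
  translation : ∃ γ : G, ∀ z ∈ Ω, a γ z = z + 2 * Real.pi * Complex.I
  bounded : ∃ R₀ : ℝ, ∀ z ∈ Ω, z.re < R₀

/-- the unit vectors `(z, θ)` (the vector `exp (- φ z) exp (i θ)` at `z`) at the points of `Ω` -/
def UV (Ω : Set ℂ) : Set (ℂ × ℝ) := {p | p.1 ∈ Ω}

/-- `μ` is the area of the surface -/
def IsAreaM [MeasurableSpace M] (Ω : Set ℂ) (φ : ℂ → ℝ) (pr : ℂ → M) (μ : Measure M) : Prop :=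
  ∀ B : Set ℂ, MeasurableSet B → B ⊆ Ω → InjOn pr B →
    μ (pr '' B) = ∫⁻ z in B, ENNReal.ofReal (Real.exp (2 * φ z))

/-- the geodesic vector field: `z' = exp (- φ) exp (i θ)`,
`θ' = exp (- φ) (- φ_x sin θ + φ_y cos θ)` -/
def geod (φ : ℂ → ℝ) (p : ℂ × ℝ) : ℂ × ℝ :=
  (⟨Real.exp (-φ p.1) * Real.cos p.2, Real.exp (-φ p.1) * Real.sin p.2⟩,
    Real.exp (-φ p.1) * (-(px φ p.1) * Real.sin p.2 + py φ p.1 * Real.cos p.2))

/-- `F` is the geodesic flow (it is complete and smooth) -/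
structure IsGeodesicFlow (Ω : Set ℂ) (φ : ℂ → ℝ) (F : ℝ → ℂ × ℝ → ℂ × ℝ) : Prop where
  maps : ∀ t, ∀ p ∈ UV Ω, F t p ∈ UV Ω
  zero : ∀ p ∈ UV Ω, F 0 p = p
  ode : ∀ t, ∀ p ∈ UV Ω, HasDerivAt (fun τ => F τ p) (geod φ (F t p)) t
  smooth : ContDiffOn ℝ ∞ (fun a : ℝ × (ℂ × ℝ) => F a.1 a.2) {a | a.2 ∈ UV Ω}

/-- `P` is the unit tangent bundle of the surface and `q` maps the unit vectors at the points of `Ω`
to `P`: two unit vectors have the same image if and only if an element of the group maps one to the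
other -/
structure IsUnitTangentBundle {G P : Type} [TopologicalSpace P] (Ω : Set ℂ) (a : G → ℂ → ℂ)
    (q : ℂ × ℝ → P) : Prop where
  cont : ContinuousOn q (UV Ω)
  open_map : ∀ O : Set (ℂ × ℝ), IsOpen O → O ⊆ UV Ω → IsOpen (q '' O)
  surj : q '' UV Ω = univ
  rel : ∀ p ∈ UV Ω, ∀ p' ∈ UV Ω, (q p = q p' ↔ ∃ γ, a γ p.1 = p'.1 ∧
    Complex.exp (p'.2 * Complex.I) * ‖deriv (a γ) p.1‖ =
      Complex.exp (p.2 * Complex.I) * deriv (a γ) p.1)

/-- `m` is the Liouville measure on the unit tangent bundle -/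
def IsLiouville {P : Type} [MeasurableSpace P] (Ω : Set ℂ) (φ : ℂ → ℝ) (q : ℂ × ℝ → P)
    (m : Measure P) : Prop :=
  ∀ B : Set (ℂ × ℝ), MeasurableSet B → B ⊆ UV Ω → InjOn q B →
    m (q '' B) = ∫⁻ p in B, ENNReal.ofReal (Real.exp (2 * φ p.1))

/-- the geodesic flow on `P` is ergodic with respect to `m`: every invariant measurable set is null or
has a null complement -/
def IsErgodic {P : Type} [MeasurableSpace P] (Ω : Set ℂ) (q : ℂ × ℝ → P) (F : ℝ → ℂ × ℝ → ℂ × ℝ)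
    (m : Measure P) : Prop :=
  ∀ A : Set P, MeasurableSet A → (∀ t, ∀ p ∈ UV Ω, (q (F t p) ∈ A ↔ q p ∈ A)) →
    m A = 0 ∨ m Aᶜ = 0

/-- `t ↦ pr (c t)` is a simple closed geodesic of length `2π` of the metric `exp (2 φ) |dz|²`,
parametrised by the arc length: `c` is the projection of an orbit of the geodesic flow, its lift `c`
satisfies `c (t + 2π) = c t + 2πi`, and `c s`, `c t` are the same point of the surface if and only if
`t - s` is a multiple of `2π` -/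
structure IsClosedGeodesic (Ω : Set ℂ) (φ : ℂ → ℝ) (pr : ℂ → M) (c : ℝ → ℂ) : Prop where
  mem : c 0 ∈ Ω
  orbit : ∃ (F : ℝ → ℂ × ℝ → ℂ × ℝ) (θ : ℝ), IsGeodesicFlow Ω φ F ∧ ∀ t, (F t (c 0, θ)).1 = c t
  period : ∀ t, c (t + 2 * Real.pi) = c t + 2 * Real.pi * Complex.I
  simple : ∀ s t, pr (c s) = pr (c t) ↔ ∃ n : ℤ, t = s + n * (2 * Real.pi)

/-- `u` is a smooth real eigenfunction of the Laplacian of the surface with the eigenvalue `lam` -/
def IsEigenfunction (Ω : Set ℂ) (φ : ℂ → ℝ) (pr : ℂ → M) (lam : ℝ) (u : M → ℝ) : Prop :=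
  ContDiffOn ℝ ∞ (fun z => u (pr z)) Ω ∧
    ∀ z ∈ Ω, lapl φ (fun z => u (pr z)) z = lam * u (pr z)

/-- `u 0, u 1, …` is an orthonormal basis of `L²` of smooth real eigenfunctions of the Laplacian of the
surface, ordered so that the eigenvalues `lam 0 ≤ lam 1 ≤ …` increase; the last condition says that the
span of the functions `u j` is dense in `L²` -/
structure IsEigenbasis [MeasurableSpace M] (Ω : Set ℂ) (φ : ℂ → ℝ) (pr : ℂ → M) (μ : Measure M)
    (u : ℕ → M → ℝ) (lam : ℕ → ℝ) : Prop where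
  eig : ∀ j, IsEigenfunction Ω φ pr (lam j) (u j)
  mono : Monotone lam
  orth : ∀ i j, ∫ x, u i x * u j x ∂μ = if i = j then 1 else 0
  total : ∀ f : M → ℝ, MemLp f 2 μ → (∀ j, ∫ x, f x * u j x ∂μ = 0) → f =ᵐ[μ] 0

/-- the smooth function `f` and its gradient with respect to the metric `exp (2 φ) |dz|²` are bounded
by `ε` -/
structure C1Small (Ω : Set ℂ) (φ : ℂ → ℝ) (pr : ℂ → M) (f : M → ℝ) (ε : ℝ) : Prop where
  smooth : ContDiffOn ℝ ∞ (fun z => f (pr z)) Ω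
  value : ∀ x, |f x| ≤ ε
  gradient : ∀ z ∈ Ω, Real.exp (-φ z) * ‖fderiv ℝ (fun z => f (pr z)) z‖ ≤ ε

end

/-- the number of the indices `j` in `J` with `lam j ≤ Λ` -/
def number (lam : ℕ → ℝ) (J : Set ℕ) (Λ : ℝ) : ℕ := {j | j ∈ J ∧ lam j ≤ Λ}.ncard

/-- **Collapse of the value distribution near every negatively curved surface.** The first part says
that the hypotheses can be satisfied by a closed hyperbolic surface (of curvature `- k`). -/
theorem result :
    (∃ (G : Type) (_ : Group G) (M : Type) (_ : MetricSpace M) (_ : CompactSpace M) (Ω : Set ℂ)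
      (a : G → ℂ → ℂ) (φ : ℂ → ℝ) (pr : ℂ → M) (c : ℝ → ℂ) (k : ℝ),
      IsNegativelyCurvedSurface G Ω a φ pr ∧ IsClosedGeodesic Ω φ pr c ∧ 0 < k ∧
      ∀ z ∈ Ω, curvature φ z = -k) ∧
    ∀ (G : Type) [Group G] (M : Type) [MetricSpace M] [CompactSpace M] [MeasurableSpace M]
      [BorelSpace M] (Ω : Set ℂ) (a : G → ℂ → ℂ) (φ : ℂ → ℝ) (pr : ℂ → M) (c : ℝ → ℂ),
      IsNegativelyCurvedSurface G Ω a φ pr → IsClosedGeodesic Ω φ pr c →
    ∃ (P : Type) (_ : MetricSpace P) (_ : CompactSpace P) (_ : MeasurableSpace P)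
      (_ : BorelSpace P) (q : ℂ × ℝ → P) (K : ℝ), IsUnitTangentBundle Ω a q ∧
    (∀ f : M → ℝ, ContDiffOn ℝ ∞ (fun z => f (pr z)) Ω →
      IsInvariantMetric Ω a (fun z => φ z + f (pr z)) ∧
      ∃ μ : Measure M, IsAreaM Ω (fun z => φ z + f (pr z)) pr μ ∧ IsFiniteMeasure μ ∧
        ∃ (u : ℕ → M → ℝ) (lam : ℕ → ℝ), IsEigenbasis Ω (fun z => φ z + f (pr z)) pr μ u lam) ∧
    ∀ ε : ℝ, 0 < ε → ∃ (c' : ℝ → ℂ) (f ψ : M → ℝ) (τ₁ : ℝ) (m : Measure P)
      (F : ℝ → ℂ × ℝ → ℂ × ℝ), 0 < τ₁ ∧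
      (∀ τ : ℝ, 0 ≤ τ → τ < τ₁ → C1Small Ω φ pr (fun x => f x + τ * ψ x) ε ∧
        ∀ z ∈ Ω, -K ≤ curvature (fun z => φ z + (f (pr z) + τ * ψ (pr z))) z ∧
          (0 < τ → curvature (fun z => φ z + (f (pr z) + τ * ψ (pr z))) z < 0)) ∧
      IsClosedGeodesic Ω (fun z => φ z + f (pr z)) pr c' ∧
      (∀ z ∈ Ω, curvature (fun z => φ z + f (pr z)) z ≤ 0 ∧
        (curvature (fun z => φ z + f (pr z)) z = 0 ↔ ∃ t : ℝ, pr (c' t) = pr z)) ∧
      IsLiouville Ω (fun z => φ z + f (pr z)) q m ∧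
      IsGeodesicFlow Ω (fun z => φ z + f (pr z)) F ∧ IsErgodic Ω q F m ∧
      (∀ μ : Measure M, IsAreaM Ω (fun z => φ z + f (pr z)) pr μ →
        ∀ (u : ℕ → M → ℝ) (lam : ℕ → ℝ), IsEigenbasis Ω (fun z => φ z + f (pr z)) pr μ u lam →
        ∃ J : Set ℕ, (∀ g : ℝ → ℝ, Continuous g → (∃ B : ℝ, ∀ t, |g t| ≤ B) →
            Tendsto (fun j => (μ.real univ)⁻¹ * ∫ x, g (u j x) ∂μ) (atTop ⊓ 𝓟 J) (𝓝 (g 0))) ∧
          ∀ C : ℝ, ∃ᶠ Λ : ℝ in atTop, C * Real.sqrt Λ < number lam J Λ) ∧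
      ∀ C ε' Λ₀ : ℝ, 0 < ε' → ∃ (Λ₁ η : ℝ), 0 < η ∧
        ∀ f' : M → ℝ, ContDiffOn ℝ ∞ (fun z => f' (pr z)) Ω → (∀ x, |f' x - f x| < η) →
        ∀ μ : Measure M, IsAreaM Ω (fun z => φ z + f' (pr z)) pr μ →
        ∀ (u : ℕ → M → ℝ) (lam : ℕ → ℝ), IsEigenbasis Ω (fun z => φ z + f' (pr z)) pr μ u lam →
        ∃ Λ : ℝ, Λ₀ ≤ Λ ∧ Λ ≤ Λ₁ ∧
          C * Real.sqrt Λ < number lam {j | μ.real {x | ε' ≤ |u j x|} ≤ ε'} Λ := by
  have hcu : ∀ {M : Type} {Ω : Set ℂ} {φ : ℂ → ℝ} {pr : ℂ → M} {c : ℝ → ℂ},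
      Pool.Agent.H240.GV.Cu Ω φ pr c → IsClosedGeodesic Ω φ pr c := by
    intro M Ω φ pr c h
    obtain ⟨F, θ, hF, ho⟩ := h.orbit
    exact ⟨h.mem, ⟨F, θ, ⟨hF.maps, hF.zero, hF.ode, hF.smooth⟩, ho⟩, h.per, h.simple⟩
  refine ⟨?_, ?_⟩
  · obtain ⟨G, iG, Ω, a, φ, M, iM, iC, pr, γ₀, R₀, k, c, hA, hI, hpr, hγ, hR, hk, hc, h⟩ :=
      Pool.Agent.H240.GV.hyp2
    exact ⟨G, iG, M, iM, iC, Ω, a, φ, pr, c, k, ⟨⟨hA.opn, hA.conn, hA.ne, hA.maps, hA.one,
      hA.mul, hA.hol, hA.free, hA.fin, hA.cpt⟩, ⟨hpr.cont, hpr.opn, hpr.surj, hpr.rel, hpr.inj,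
      hpr.conn⟩, hI, fun z hz => (hc z hz).trans_lt (by linarith), ⟨γ₀, hγ⟩, ⟨R₀, hR⟩⟩, hcu h, hk,
      hc⟩
  intro G _ M _ _ _ _ Ω a φ pr c hS hc
  obtain ⟨hG, hM, hφ, hK, ⟨γ₀, hγ⟩, ⟨R₀, hR⟩⟩ := hS
  have hA : Pool.Agent.Y262.EX.Act G Ω a := ⟨hG.domain, hG.conn, hG.nonempty, hG.maps, hG.one,
    hG.mul, hG.hol, hG.free, hG.proper, hG.cocompact⟩
  have hI : Pool.Agent.Y262.EX.Inva Ω φ a := hφ
  have hpr : Pool.Agent.Y262.EX.PrM Ω a pr :=
    ⟨hM.cont, hM.open_map, hM.surj, hM.rel, hM.loc_inj, hM.conn⟩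
  have hc0 : Pool.Agent.H240.GV.Cu Ω φ pr c := by
    obtain ⟨F, θ, hF, ho⟩ := hc.orbit
    exact ⟨⟨F, θ, ⟨hF.maps, hF.zero, hF.ode, hF.smooth⟩, ho⟩, hc.mem, hc.period, hc.simple⟩
  obtain ⟨P, iP, cP, iPm, iPb, q, hq, hUT, hall, K, hmain⟩ :=
    Pool.Agent.H240.GV.finA G M Ω a φ pr c R₀ γ₀ hA hI hpr hγ hR hK hc0
  refine ⟨P, iP, cP, iPm, iPb, q, K, ⟨hq.cont, hq.opn, hq.surj, hq.rel⟩, fun f hf => ?_,
    fun ε hε => ?_⟩
  · obtain ⟨a0, -, -, μ, a1, a2, u, lam, hu⟩ := hall f hf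
    exact ⟨a0, μ, a1, a2, u, lam, hu.eig, hu.mono, hu.orth, hu.total⟩
  obtain ⟨c', f, ψ, τ₁, b1, b2, h⟩ := hmain ε 0 hε
  have e1 : (fun x => f x + 0 * ψ x) = f := by
    funext x
    rw [zero_mul, add_zero]
  have e2 : (fun z => φ z + (f (pr z) + 0 * ψ (pr z))) = fun z => φ z + f (pr z) := by
    funext z
    rw [zero_mul, add_zero]
  have hs := h.sm 0 le_rfl h.τp
  have hg := h.cu 0 le_rfl h.τp
  rw [e1] at hs
  rw [e2] at hg
  obtain ⟨a0, ⟨m, hm⟩, ⟨F, hF⟩, μ', a1, a2, -⟩ := hall f hs.sm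
  refine ⟨c', f, ψ, τ₁, m, F, h.τp, fun τ h1 h2 => ?_, hcu hg, h.zer, hm,
    ⟨hF.maps, hF.zero, hF.ode, hF.smooth⟩, h.erg Pool.Agent.H240.EV.tErgG m F hm hF,
    fun μ hμ u lam hu => ?_, fun C ε' Λ₀ hε' => ?_⟩
  · obtain ⟨s1, s2, s3⟩ := h.sm τ h1 h2
    exact ⟨⟨s1, s2, s3⟩, fun z hz => ⟨h.low τ h1 h2 z hz, fun h3 => h.neg τ h3 h2 z hz⟩⟩
  · obtain ⟨-, J, hJ1, -, hJ3⟩ := h.spec.scar μ hμ u lam ⟨hu.eig, hu.mono, hu.orth, hu.total⟩
    have hμe : μ = μ' := Pool.Agent.H240.NL.area_unique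
      (Pool.Agent.H240.GU.ut_smooth hUT hs.sm) hμ a1
    subst hμe
    refine ⟨J, fun g hg hB => ?_, hJ1⟩
    obtain ⟨B, hB⟩ := hB
    have hms : ∀ j, AEStronglyMeasurable (u j) μ := fun j =>
      (Pool.Agent.H240.NL.cont_of hUT (hu.eig j).1.continuousOn).aestronglyMeasurable
    have h1 := (Pool.Agent.H240.CG.law_collapse hms hJ3 hg hB).const_mul (μ.real univ)⁻¹
    have hne : μ.real univ ≠ 0 := by
      intro h0
      have h2 : μ univ = 0 := by
        rcases (ENNReal.toReal_eq_zero_iff _).1 h0 with h3 | h3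
        · exact h3
        · exact absurd h3 (measure_ne_top μ univ)
      have h3 := hu.orth 0 0
      rw [if_pos rfl, Measure.measure_univ_eq_zero.1 h2, integral_zero_measure] at h3
      exact zero_ne_one h3
    rw [← mul_assoc, inv_mul_cancel₀ hne, one_mul] at h1
    exact h1
  · obtain ⟨Λ₁, η, hη, hw⟩ := h.spec.val C ε' Λ₀ hε'
    exact ⟨Λ₁, η, hη, fun f' hf' hfη μ hμ u lam hu =>
      hw f' hf' hfη μ hμ u lam ⟨hu.eig, hu.mono, hu.orth, hu.total⟩⟩

end Pool.Agent.Results.MP_a52643_an.ValueCollapseNearEveryMetric
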